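import Pool.Agent.Run7.h400.GK.StmA
import Pool.Agent.Run7.h400.GK.StmK

/-!
# Piece TOR of helper400's project GK (MP_a90b0f_nt): torsion points of the Carlitz module
-/

set_option autoImplicit false

namespace Run7.h697.GK

open Polynomial Finset TensorProduct nonZeroDivisors Run7.h400.GK

section

variable {Fq E F : Type} [Field Fq] [Fintype Fq] [Field E] [Fintype E] [Algebra Fq E]
  [Field F] [Algebra Fq[X] F]

/-- the elementary rules of the Carlitz action -/
structure Rules (Fq F : Type) [Field Fq] [Fintype Fq] [Field F] [Algebra Fq[X] F] (q : ℕ) :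
    Prop where
  addx : ∀ (a : Fq[X]) (x y : F), cact q a (x + y) = cact q a x + cact q a y
  adda : ∀ (a b : Fq[X]) (x : F), cact q (a + b) x = cact q a x + cact q b x
  mul : ∀ (a b : Fq[X]) (x : F), cact q (a * b) x = cact q a (cact q b x)
  c : ∀ (c : Fq) (x : F), cact q (C c) x = algebraMap Fq[X] F (C c) * x
  x : ∀ x : F, cact q (X : Fq[X]) x = algebraMap Fq[X] F X * x + x ^ q

variable {q : ℕ} (R : Rules Fq F q)
include R

lemma cact_x_zero (a : Fq[X]) : cact q a (0 : F) = 0 := by
  have h := R.addx a 0 0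
  rw [add_zero] at h
  exact left_eq_add.mp h

lemma cact_one (x : F) : cact q (1 : Fq[X]) x = x := by
  rw [← C_1, R.c, C_1, map_one, one_mul]

lemma cact_zero (x : F) : cact q (0 : Fq[X]) x = 0 := by
  rw [← C_0, R.c, C_0, map_zero, zero_mul]

variable {w : Fq[X]} {θ : E} {d : ℕ} {lm : F} (hD : Dat Fq E w θ q d)
  (hl : cact q w lm = 0)
include hD hl

lemma cact_congr {a b : Fq[X]} (hab : aeval θ a = aeval θ b) : cact q a lm = cact q b lm := by
  have hw : w = minpoly Fq θ := minpoly.eq_of_irreducible_of_monic hD.irr hD.root hD.monic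
  have h1 : w ∣ a - b := by
    rw [hw]
    exact minpoly.dvd _ _ (by rw [map_sub, hab, sub_self])
  obtain ⟨c, hc⟩ := h1
  have h2 : a = b + c * w := by rw [mul_comm c w, ← hc]; ring
  rw [h2, R.adda, R.mul, hl, cact_x_zero R, add_zero]

lemma cact_ne (h0 : lm ≠ 0) {a : Fq[X]} (ha : aeval θ a ≠ 0) : cact q a lm ≠ 0 := by
  intro h
  have hw : w = minpoly Fq θ := minpoly.eq_of_irreducible_of_monic hD.irr hD.root hD.monic
  have hnd : ¬ w ∣ a := by
    intro hwa
    obtain ⟨c, hc⟩ := hwa
    apply ha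
    rw [hc, map_mul, hD.root, zero_mul]
  obtain ⟨u, v, huv⟩ := (hD.irr.coprime_iff_not_dvd.mpr hnd)
  apply h0
  rw [← cact_one R lm, ← huv, R.adda, R.mul, R.mul, hl, h, cact_x_zero R, cact_x_zero R, add_zero]

end

section

variable {Fq E F : Type} [Field Fq] [Fintype Fq] [Field E] [Fintype E] [Algebra Fq E]
  [Field F] [Algebra Fq[X] F]

lemma rp_spec (hFRB : S_FRB) {w : Fq[X]} {θ : E} {q d : ℕ} (hD : Dat Fq E w θ q d) (z : E) :
    (rp (Fq := Fq) θ d z).degree < d ∧ aeval θ (rp (Fq := Fq) θ d z) = z := by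
  obtain ⟨a, ha, -⟩ := (hFRB Fq E w θ q d hD).2.2.2.2.2 z
  exact Classical.epsilon_spec (p := fun a : Fq[X] => a.degree < d ∧ aeval θ a = z) ⟨a, ha⟩

/-- the list of the statements of TOR -/
structure Tor (Fq E F : Type) [Field Fq] [Fintype Fq] [Field E] [Fintype E] [Algebra Fq E]
    [Field F] [Algebra Fq[X] F] (w : Fq[X]) (θ : E) (q d : ℕ) (lm : F) : Prop where
  add : ∀ z z' : E, tz (Fq := Fq) q θ d lm (z + z') =
    tz (Fq := Fq) q θ d lm z + tz (Fq := Fq) q θ d lm z'
  one : tz (Fq := Fq) q θ d lm 1 = lm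
  zero : ∀ z : E, tz (Fq := Fq) q θ d lm z = 0 ↔ z = 0
  act : ∀ (a : Fq[X]) (z : E), cact q a (tz (Fq := Fq) q θ d lm z) =
    tz (Fq := Fq) q θ d lm (aeval θ a * z)
  X : ∀ z : E, algebraMap Fq[X] F X * tz (Fq := Fq) q θ d lm z + tz (Fq := Fq) q θ d lm z ^ q =
    tz (Fq := Fq) q θ d lm (θ * z)
  all : ∀ x : F, cact q w x = 0 → ∃ z : E, x = tz (Fq := Fq) q θ d lm z

lemma Tor.inj {w : Fq[X]} {θ : E} {q d : ℕ} {lm : F} (T : Tor Fq E F w θ q d lm) :
    Function.Injective (tz (Fq := Fq) q θ d lm) := by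
  intro z z' h
  have h1 := T.add (z - z') z'
  rw [sub_add_cancel, h] at h1
  have h2 : tz (Fq := Fq) q θ d lm (z - z') = 0 := by
    have := left_eq_add.mp (h1.trans (add_comm _ _))
    exact this
  exact sub_eq_zero.mp ((T.zero _).mp h2)

theorem tor (hCAR : S_CAR) (hFRB : S_FRB) {w : Fq[X]} {θ : E} {q d : ℕ} {lm : F}
    (R : Rules Fq F q)
    (hD : Dat Fq E w θ q d) (hl : cact q w lm = 0) (h0 : lm ≠ 0) : Tor Fq E F w θ q d lm := by
  have hrp : ∀ z : E, aeval θ (rp (Fq := Fq) θ d z) = z := fun z => (rp_spec hFRB hD z).2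
  have hadd : ∀ z z' : E, tz (Fq := Fq) q θ d lm (z + z') =
      tz (Fq := Fq) q θ d lm z + tz (Fq := Fq) q θ d lm z' := by
    intro z z'
    unfold tz
    rw [← R.adda]
    exact cact_congr R hD hl (by rw [map_add, hrp, hrp, hrp])
  have hact : ∀ (a : Fq[X]) (z : E), cact q a (tz (Fq := Fq) q θ d lm z) =
      tz (Fq := Fq) q θ d lm (aeval θ a * z) := by
    intro a z
    unfold tz
    rw [← R.mul]
    exact cact_congr R hD hl (by rw [map_mul, hrp, hrp])
  have hzero : ∀ z : E, tz (Fq := Fq) q θ d lm z = 0 ↔ z = 0 := by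
    intro z
    constructor
    · intro h
      by_contra hz
      exact cact_ne R hD hl h0 (a := rp (Fq := Fq) θ d z) (by rwa [hrp]) h
    · rintro rfl
      unfold tz
      rw [cact_congr R hD hl (b := 0) (by rw [hrp, map_zero]), cact_zero R]
  have hinj : Function.Injective (tz (Fq := Fq) q θ d lm) := by
    intro z z' h
    have h1 := hadd (z - z') z'
    rw [sub_add_cancel, h] at h1
    have h2 : tz (Fq := Fq) q θ d lm (z - z') = 0 := by
      simpa using h1
    exact sub_eq_zero.mp ((hzero _).mp h2)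
  refine ⟨hadd, ?_, hzero, hact, ?_, ?_⟩
  · unfold tz
    rw [cact_congr R hD hl (b := 1) (by rw [hrp, map_one]), cact_one R]
  · intro z
    rw [← R.x, hact, aeval_X]
  · intro x hx
    obtain ⟨cc, -, hcd, -, hcc⟩ := hCAR Fq w q d hD.hq hD.irr hD.monic hD.deg
    have hq : 1 < q := by rw [hD.hq]; exact Fintype.one_lt_card
    let P : F[X] := ∑ i ∈ range (d + 1), C (algebraMap Fq[X] F (cc i)) * X ^ (q ^ i)
    have hev : ∀ y : F, P.eval y = cact q w y := by
      intro y
      rw [hcc F y]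
      simp [P, eval_finsetSum]
    have hdeg : P.natDegree ≤ q ^ d := by
      refine natDegree_sum_le_of_forall_le _ _ fun i hi => ?_
      refine (natDegree_C_mul_X_pow_le _ _).trans ?_
      exact Nat.pow_le_pow_right (by omega) (by have := mem_range.mp hi; omega)
    have hP : P ≠ 0 := by
      have hc : P.coeff (q ^ d) = 1 := by
        simp only [P, finsetSum_coeff, coeff_C_mul, coeff_X_pow]
        rw [Finset.sum_eq_single d]
        · simp [hcd]
        · intro i hi hne
          rw [if_neg, mul_zero]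
          intro h
          exact hne (Nat.pow_right_injective (by omega) h).symm
        · intro h
          exact absurd (mem_range.mpr (by omega)) h
      intro h
      rw [h, coeff_zero] at hc
      exact zero_ne_one hc
    classical
    let I : Finset F := univ.image (tz (Fq := Fq) q θ d lm)
    have hI : I.card = q ^ d := by
      rw [Finset.card_image_of_injective _ hinj, Finset.card_univ, hD.hd]
    have hsub : I ⊆ P.roots.toFinset := by
      intro y hy
      obtain ⟨z, -, rfl⟩ := Finset.mem_image.mp hy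
      rw [Multiset.mem_toFinset, mem_roots hP, IsRoot.def, hev, hact, hD.root, zero_mul]
      exact (hzero 0).mpr rfl
    have hle : P.roots.toFinset.card ≤ I.card := by
      rw [hI]
      exact (Multiset.toFinset_card_le _).trans ((card_roots' _).trans hdeg)
    have heq := Finset.eq_of_subset_of_card_le hsub hle
    have hxI : x ∈ I := by
      rw [heq, Multiset.mem_toFinset, mem_roots hP, IsRoot.def, hev, hx]
    obtain ⟨z, -, hz⟩ := Finset.mem_image.mp hxI
    exact ⟨z, hz.symm⟩

end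

/-- the rules from CAL -/
lemma rules (hCAL : S_CAL) (Fq F : Type) [Field Fq] [Fintype Fq] [Field F] [Algebra Fq[X] F]
    {q : ℕ} (hq : q = Fintype.card Fq) : Rules Fq F q := by
  obtain ⟨h1, h2, h3, h4, h5, -⟩ := hCAL Fq F q hq
  exact ⟨h1, h2, h3, h4, h5⟩

theorem t_TOR (hCAR : S_CAR) (hCAL : S_CAL) (hFRB : S_FRB) : S_TOR := by
  intro Fq E F _ _ _ _ _ _ _ _ _ w θ q d lm hD hF
  have T := tor hCAR hFRB (rules hCAL Fq F hD.hq) hD hF.tor hF.ne
  exact ⟨T.add, T.one, T.zero, T.act, T.X, T.all⟩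

end Run7.h697.GK
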