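import Pool.Agent.Run7.h697.GK.TOR

/-!
# Piece GAL of helper400's project GK (MP_a90b0f_nt): the Carlitz cyclotomic field is Galois
-/

set_option autoImplicit false

namespace Run7.h697.GK

open Polynomial Finset TensorProduct nonZeroDivisors Run7.h400.GK

theorem t_GAL (hCAR : S_CAR) (hCAL : S_CAL) (_hFRB : S_FRB) (hTOR : S_TOR) : S_GAL := by
  intro Fq E F _ _ _ _ _ _ _ _ _ w θ q d lm hD hF
  have T : Tor Fq E F w θ q d lm := by
    obtain ⟨h1, h2, h3, h4, h5, h6⟩ := hTOR Fq E F w θ q d lm hD hF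
    exact ⟨h1, h2, h3, h4, h5, h6⟩
  have hq : 1 < q := by rw [hD.hq]; exact Fintype.one_lt_card
  obtain ⟨cc, hc0, hcd, -, hcc⟩ := hCAR Fq w q d hD.hq hD.irr hD.monic hD.deg
  have hw0 : algebraMap Fq[X] (RatFunc Fq) w ≠ 0 := by
    rw [Ne, FaithfulSMul.algebraMap_eq_zero_iff]
    exact hD.irr.ne_zero
  let P : (RatFunc Fq)[X] :=
    ∑ i ∈ range (d + 1), C (algebraMap Fq[X] (RatFunc Fq) (cc i)) * X ^ (q ^ i)
  have hev : ∀ y : F, aeval y P = cact q w y := by
    intro y
    rw [hcc F y]
    simp only [P, map_sum, map_mul, aeval_C, map_pow, aeval_X,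
      ← IsScalarTower.algebraMap_apply]
  have hdeg : P.natDegree ≤ q ^ d := by
    refine natDegree_sum_le_of_forall_le _ _ fun i hi => ?_
    refine (natDegree_C_mul_X_pow_le _ _).trans ?_
    exact Nat.pow_le_pow_right (by omega) (by have := mem_range.mp hi; omega)
  have hP : P ≠ 0 := by
    have hc : P.coeff (q ^ d) = 1 := by
      simp only [P, finsetSum_coeff, coeff_C_mul, coeff_X_pow]
      rw [Finset.sum_eq_single d]
      · simp [hcd]
      · intro i hi hne
        rw [if_neg, mul_zero]
        intro h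
        exact hne (Nat.pow_right_injective (by omega) h).symm
      · intro h
        exact absurd (mem_range.mpr (by omega)) h
    intro h
    rw [h, coeff_zero] at hc
    exact zero_ne_one hc
  have hqK : ((q : ℕ) : RatFunc Fq) = 0 := by
    have h1 : ((q : ℕ) : Fq) = 0 := by rw [hD.hq]; exact FiniteField.cast_card_eq_zero Fq
    have h2 : ((q : ℕ) : RatFunc Fq) = algebraMap Fq[X] (RatFunc Fq) (C ((q : ℕ) : Fq)) := by
      simp
    rw [h2, h1, C_0, map_zero]
  have hder : derivative P = C (algebraMap Fq[X] (RatFunc Fq) w) := by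
    simp only [P, derivative_sum, derivative_C_mul_X_pow]
    rw [Finset.sum_eq_single 0]
    · simp [hc0]
    · intro i hi hne
      have : ((q ^ i : ℕ) : RatFunc Fq) = 0 := by
        rw [Nat.cast_pow, hqK, zero_pow hne]
      rw [this, mul_zero, C_0, zero_mul]
    · intro h
      exact absurd (mem_range.mpr (by omega)) h
  have hsep : P.Separable := by
    refine ⟨0, C (algebraMap Fq[X] (RatFunc Fq) w)⁻¹, ?_⟩
    rw [zero_mul, zero_add, hder, ← C_mul, inv_mul_cancel₀ hw0, C_1]
  classical
  let I : Finset F := univ.image (tz (Fq := Fq) q θ d lm)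
  have hI : I.card = q ^ d := by
    rw [Finset.card_image_of_injective _ T.inj, Finset.card_univ, hD.hd]
  have hPm : P.map (algebraMap (RatFunc Fq) F) ≠ 0 := by
    rw [Ne, Polynomial.map_eq_zero]
    exact hP
  have hroot : ∀ z, tz (Fq := Fq) q θ d lm z ∈ (P.map (algebraMap (RatFunc Fq) F)).roots := by
    intro z
    rw [mem_roots hPm, IsRoot.def, eval_map_algebraMap, hev, T.act, hD.root, zero_mul]
    exact (T.zero 0).mpr rfl
  have hsub : I ⊆ (P.map (algebraMap (RatFunc Fq) F)).roots.toFinset := by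
    intro y hy
    obtain ⟨z, -, rfl⟩ := Finset.mem_image.mp hy
    rw [Multiset.mem_toFinset]
    exact hroot z
  have hspl : (P.map (algebraMap (RatFunc Fq) F)).Splits := by
    rw [splits_iff_card_roots]
    refine le_antisymm (card_roots' _) ?_
    rw [natDegree_map]
    calc P.natDegree ≤ q ^ d := hdeg
      _ = I.card := hI.symm
      _ ≤ _ := Finset.card_le_card hsub
      _ ≤ _ := Multiset.toFinset_card_le _
  have hsf : P.IsSplittingField (RatFunc Fq) F := by
    rw [isSplittingField_iff_intermediateField]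
    refine ⟨hspl, ?_⟩
    rw [eq_top_iff, ← hF.gen]
    refine IntermediateField.adjoin.mono _ _ _ ?_
    rw [Set.singleton_subset_iff, mem_rootSet]
    refine ⟨hP, ?_⟩
    rw [hev, hF.tor]
  have hfd : FiniteDimensional (RatFunc Fq) F := IsSplittingField.finiteDimensional F P
  have hgal : IsGalois (RatFunc Fq) F := IsGalois.of_separable_splitting_field hsep
  -- the character
  have hcomp : ∀ (σ : F ≃ₐ[RatFunc Fq] F) (a : Fq[X]) (x : F), σ (cact q a x) = cact q a (σ x) := by
    intro σ a x
    refine (hCAL Fq F q hD.hq).2.2.2.2.2 F (σ : F →+* F) (fun c => ?_) a x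
    rw [IsScalarTower.algebraMap_apply Fq[X] (RatFunc Fq) F]
    exact σ.commutes _
  have hex : ∀ σ : F ≃ₐ[RatFunc Fq] F, ∃ z : E, σ lm = tz (Fq := Fq) q θ d lm z := by
    intro σ
    refine T.all _ ?_
    rw [← hcomp, hF.tor, map_zero]
  choose u hu using hex
  have hact : ∀ σ z, σ (tz (Fq := Fq) q θ d lm z) = tz (Fq := Fq) q θ d lm (u σ * z) := by
    intro σ z
    have hz : aeval θ (rp (Fq := Fq) θ d z) = z := (rp_spec _hFRB hD z).2
    have h1 : σ (tz (Fq := Fq) q θ d lm z) = cact q (rp (Fq := Fq) θ d z) (σ lm) := by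
      rw [← hcomp]
      rfl
    rw [h1, hu, T.act, hz, mul_comm]
  have hne : ∀ σ, u σ ≠ 0 := by
    intro σ h
    have h1 := hu σ
    rw [h, (T.zero 0).mpr rfl] at h1
    exact hF.ne ((map_eq_zero σ).mp h1)
  let U : (F ≃ₐ[RatFunc Fq] F) →* E :=
    { toFun := u
      map_one' := T.inj (by rw [← hu 1, T.one]; rfl)
      map_mul' := fun σ τ => T.inj (by
        rw [← hu (σ * τ), ← hact, ← hu τ]
        rfl) }
  have hlast : ∀ σ (a : Fq[X]), σ lm = cact q a lm → u σ = aeval θ a := by
    intro σ a h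
    apply T.inj
    rw [← hu σ, h]
    conv_lhs => rw [← T.one]
    rw [T.act, mul_one]
  refine ⟨hfd, hgal, ?_, U, hne, hact, hlast⟩
  intro p hp hpq hdvd
  have hinj : Function.Injective U.toHomUnits := by
    rw [injective_iff_map_eq_one]
    intro σ hσ
    have h1 : u σ = 1 := by
      have h0 : U σ = 1 := by
        have := congrArg Units.val hσ
        simpa using this
      exact h0
    have h2 : σ lm = lm := by rw [hu σ, h1, T.one]
    have h3 : ∀ x : F, x ∈ IntermediateField.adjoin (RatFunc Fq) {lm} → σ x = x := by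
      intro x hx
      induction hx using IntermediateField.adjoin_induction with
      | mem x hx => rw [Set.mem_singleton_iff.mp hx, h2]
      | algebraMap x => exact σ.commutes x
      | add x y _ _ hx hy => rw [map_add, hx, hy]
      | inv x _ hx => rw [map_inv₀, hx]
      | mul x y _ _ hx hy => rw [map_mul, hx, hy]
    ext x
    exact h3 x (by rw [hF.gen]; exact IntermediateField.mem_top)
  have h1 := Subgroup.card_dvd_of_injective U.toHomUnits hinj
  have h2 : Nat.card Eˣ = q ^ d - 1 := by
    rw [Nat.card_units, Nat.card_eq_fintype_card, hD.hd]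
  rw [h2] at h1
  have h3 : p ∣ q ^ d - 1 := hdvd.trans h1
  have h4 : p ∣ q ^ d := dvd_pow hpq (by have := hD.hd1; omega)
  have h5 : 1 ≤ q ^ d := Nat.one_le_pow _ _ (by omega)
  have h6 : p ∣ 1 := by
    have := (Nat.dvd_sub h4 h3)
    rwa [Nat.sub_sub_self h5] at this
  exact hp.one_lt.ne' (Nat.dvd_one.mp h6)

end Run7.h697.GK
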